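import Pool.Agent.Helper48.KV.GoalsG1

/-!
# Project KV, section G, packet STAT: the static weighted identity
-/

open MeasureTheory Set Filter Topology

namespace Pool.Agent.Helper79.KV

open Pool.Agent.Helper48.KV

/-- bounded continuous -/
def Bd (f : ℝ → ℝ) : Prop := Continuous f ∧ ∃ C : ℝ, ∀ x, |f x| ≤ C

/-- square integrable, bounded continuous, zero at infinity -/
def Lz (f : ℝ → ℝ) : Prop := Bd f ∧ MemLp f 2 ∧ Tendsto f (cocompact ℝ) (𝓝 0)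

lemma Bd.const (c : ℝ) : Bd (fun _ => c) := ⟨continuous_const, |c|, fun _ => le_rfl⟩

lemma Bd.add {f g : ℝ → ℝ} (hf : Bd f) (hg : Bd g) : Bd (fun x => f x + g x) := by
  obtain ⟨c1, C, hC⟩ := hf
  obtain ⟨c2, D, hD⟩ := hg
  exact ⟨c1.add c2, C + D, fun x => (abs_add_le _ _).trans (add_le_add (hC x) (hD x))⟩

lemma Bd.mul {f g : ℝ → ℝ} (hf : Bd f) (hg : Bd g) : Bd (fun x => f x * g x) := by
  obtain ⟨c1, C, hC⟩ := hf
  obtain ⟨c2, D, hD⟩ := hg
  refine ⟨c1.mul c2, C * D, fun x => ?_⟩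
  rw [abs_mul]
  exact mul_le_mul (hC x) (hD x) (abs_nonneg _) ((abs_nonneg _).trans (hC x))

lemma Bd.neg {f : ℝ → ℝ} (hf : Bd f) : Bd (fun x => - f x) := by
  obtain ⟨c1, C, hC⟩ := hf
  exact ⟨c1.neg, C, fun x => by rw [abs_neg]; exact hC x⟩

lemma Bd.smul {f : ℝ → ℝ} (hf : Bd f) (c : ℝ) : Bd (fun x => c * f x) := (Bd.const c).mul hf

lemma Bd.pow {f : ℝ → ℝ} (hf : Bd f) (n : ℕ) : Bd (fun x => f x ^ n) := by
  induction n with
  | zero => simpa using Bd.const 1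
  | succ n ih => simpa [pow_succ] using ih.mul hf

lemma Bd.mulL {f g : ℝ → ℝ} (hf : Bd f) (hg : MemLp g 2) : MemLp (fun x => f x * g x) 2 := by
  obtain ⟨c1, C, hC⟩ := hf
  refine MemLp.of_le_mul (c := C) hg (c1.aestronglyMeasurable.mul hg.1) ?_
  refine Eventually.of_forall fun x => ?_
  rw [norm_mul, Real.norm_eq_abs, Real.norm_eq_abs]
  exact mul_le_mul_of_nonneg_right (hC x) (abs_nonneg _)

lemma Bd.mulI {f g : ℝ → ℝ} (hf : Bd f) (hg : Integrable g) :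
    Integrable (fun x => f x * g x) := by
  obtain ⟨c1, C, hC⟩ := hf
  exact hg.bdd_mul c1.aestronglyMeasurable (Eventually.of_forall fun x => hC x)

lemma Bd.mulZ {f g : ℝ → ℝ} {l : Filter ℝ} (hf : Bd f) (hg : Tendsto g l (𝓝 0)) :
    Tendsto (fun x => f x * g x) l (𝓝 0) := by
  obtain ⟨c1, C, hC⟩ := hf
  have h : Tendsto (fun x => C * |g x|) l (𝓝 0) := by
    have h1 := hg.abs.const_mul C
    simpa using h1
  refine squeeze_zero_norm (fun x => ?_) h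
  rw [Real.norm_eq_abs, abs_mul]
  exact mul_le_mul_of_nonneg_right (hC x) (abs_nonneg _)

lemma Lz.add {f g : ℝ → ℝ} (hf : Lz f) (hg : Lz g) : Lz (fun x => f x + g x) :=
  ⟨hf.1.add hg.1, hf.2.1.add hg.2.1, by simpa using hf.2.2.add hg.2.2⟩

lemma Lz.bmul {f g : ℝ → ℝ} (hf : Bd f) (hg : Lz g) : Lz (fun x => f x * g x) :=
  ⟨hf.mul hg.1, hf.mulL hg.2.1, hf.mulZ hg.2.2⟩

lemma LL {f g : ℝ → ℝ} (hf : MemLp f 2) (hg : MemLp g 2) : Integrable (fun x => f x * g x) :=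
  hf.integrable_mul hg

lemma jet_Bd {p : ℕ → ℝ → ℝ} (hp : BJet p) (k : ℕ) : Bd (p k) :=
  ⟨continuous_iff_continuousAt.2 fun x => (hp.1 k x).continuousAt, hp.2 k⟩

lemma jet_Lz {e : ℕ → ℝ → ℝ} (he : L2Jet e) (k : ℕ) : Lz (e k) := by
  have hc : ∀ k, Continuous (e k) := fun k =>
    continuous_iff_continuousAt.2 fun x => (he.1 k x).continuousAt
  have hm : ∀ k, MemLp (e k) 2 := fun k =>
    (memLp_two_iff_integrable_sq (hc k).aestronglyMeasurable).2 (he.2 k)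
  have hd : ∀ x, HasDerivAt (fun y => e k y ^ 2) (2 * (e k x * e (k + 1) x)) x := by
    intro x
    have h := (he.1 k x).pow 2
    refine h.congr_deriv ?_
    ring
  have hi : Integrable (fun x => 2 * (e k x * e (k + 1) x)) := (LL (hm k) (hm (k + 1))).const_mul 2
  have hT : Tendsto (fun x => e k x ^ 2) atTop (𝓝 0) :=
    MeasureTheory.tendsto_zero_of_hasDerivAt_of_integrableOn_Ioi (a := 0) (fun x _ => hd x)
      hi.integrableOn (he.2 k).integrableOn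
  have hB : Tendsto (fun x => e k x ^ 2) atBot (𝓝 0) :=
    MeasureTheory.tendsto_zero_of_hasDerivAt_of_integrableOn_Iic (a := 0) (fun x _ => hd x)
      hi.integrableOn (he.2 k).integrableOn
  have hco : Tendsto (fun x => e k x ^ 2) (cocompact ℝ) (𝓝 0) := by
    rw [cocompact_eq_atBot_atTop]
    exact hB.sup hT
  refine ⟨⟨hc k, Real.sqrt (∫ x, |2 * (e k x * e (k + 1) x)|), ?_⟩, hm k, ?_⟩
  · intro x
    apply Real.abs_le_sqrt
    have h1 := MeasureTheory.integral_Iic_of_hasDerivAt_of_tendsto' (a := x)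
      (fun y _ => hd y) hi.integrableOn hB
    rw [sub_zero] at h1
    rw [← h1]
    calc ∫ y in Iic x, 2 * (e k y * e (k + 1) y)
        ≤ ∫ y in Iic x, |2 * (e k y * e (k + 1) y)| :=
          integral_mono hi.integrableOn hi.abs.integrableOn fun y => le_abs_self _
      _ ≤ ∫ y, |2 * (e k y * e (k + 1) y)| :=
          setIntegral_le_integral hi.abs (Eventually.of_forall fun y => abs_nonneg _)
  · have h1 := (Real.continuous_sqrt.tendsto 0).comp hco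
    rw [Real.sqrt_zero] at h1
    rw [tendsto_zero_iff_abs_tendsto_zero]
    refine h1.congr fun x => ?_
    simp [Real.sqrt_sq_eq_abs]

lemma Lz.congr {f g : ℝ → ℝ} (hf : Lz f) (h : ∀ x, f x = g x) : Lz g := by
  have : f = g := funext h
  rwa [← this]

theorem stat : S_STAT := by
  intro e U p q he hU hp hq S0 S1 hS0 hS1
  have e0 := jet_Lz he 0
  have e1 := jet_Lz he 1
  have e2 := jet_Lz he 2
  have e3 := jet_Lz he 3
  have e4 := jet_Lz he 4
  have U0 := jet_Bd hU 0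
  have U1 := jet_Bd hU 1
  have U2 := jet_Bd hU 2
  have p0 := jet_Bd hp 0
  have p1 := jet_Bd hp 1
  have p2 := jet_Bd hp 2
  have p3 := jet_Bd hp 3
  have q0 := jet_Bd hq 0
  have q1 := jet_Bd hq 1
  have q2 := jet_Bd hq 2
  have q3 := jet_Bd hq 3
  -- the nonlinear quantities
  have hG : Lz (fun x => nG (U 0 x) (e 0 x)) := by
    have hb : Bd (fun x => ((5 * U 0 x ^ 4 + 10 * (U 0 x ^ 3 * e 0 x))
        + 10 * (U 0 x ^ 2 * e 0 x ^ 2)) + (5 * (U 0 x * e 0 x ^ 3) + e 0 x ^ 4)) :=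
      (((U0.pow 4).smul 5).add (((U0.pow 3).mul e0.1).smul 10) |>.add
        (((U0.pow 2).mul (e0.1.pow 2)).smul 10)).add
        (((U0.mul (e0.1.pow 3)).smul 5).add (e0.1.pow 4))
    exact (Lz.bmul hb e0).congr fun x => by unfold nG; ring
  have hGx : Lz (fun x => nGx (U 0 x) (U 1 x) (e 0 x) (e 1 x)) := by
    have hb1 : Bd (fun x => 5 * (U 0 x + e 0 x) ^ 4) := ((U0.add e0.1).pow 4).smul 5
    have hb2 : Bd (fun x => 5 * (U 1 x * ((4 * U 0 x ^ 3 + 6 * (U 0 x ^ 2 * e 0 x))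
        + (4 * (U 0 x * e 0 x ^ 2) + e 0 x ^ 3)))) :=
      (U1.mul ((((U0.pow 3).smul 4).add (((U0.pow 2).mul e0.1).smul 6)).add
        (((U0.mul (e0.1.pow 2)).smul 4).add (e0.1.pow 3)))).smul 5
    exact ((Lz.bmul hb1 e1).add (Lz.bmul hb2 e0)).congr fun x => by unfold nGx; ring
  have hGxx : Lz (fun x => nGxx (U 0 x) (U 1 x) (U 2 x) (e 0 x) (e 1 x) (e 2 x)) := by
    -- 20 (U+e)^3 (U1+e1)^2 - 20 U^3 U1^2 + 5 (U+e)^4 (U2+e2) - 5U^4U2
    have hb1 : Bd (fun x => 20 * (((U 0 x + e 0 x) ^ 3) * (2 * U 1 x + e 1 x))) :=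
      (((U0.add e0.1).pow 3).mul ((U1.smul 2).add e1.1)).smul 20
    have hb2 : Bd (fun x => 20 * (U 1 x ^ 2 * (3 * U 0 x ^ 2 + (3 * (U 0 x * e 0 x)
        + e 0 x ^ 2)))) :=
      ((U1.pow 2).mul (((U0.pow 2).smul 3).add (((U0.mul e0.1).smul 3).add (e0.1.pow 2)))).smul 20
    have hb3 : Bd (fun x => 5 * (U 0 x + e 0 x) ^ 4) := ((U0.add e0.1).pow 4).smul 5
    have hb4 : Bd (fun x => 5 * (U 2 x * ((4 * U 0 x ^ 3 + 6 * (U 0 x ^ 2 * e 0 x))
        + (4 * (U 0 x * e 0 x ^ 2) + e 0 x ^ 3)))) :=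
      (U2.mul ((((U0.pow 3).smul 4).add (((U0.pow 2).mul e0.1).smul 6)).add
        (((U0.mul (e0.1.pow 2)).smul 4).add (e0.1.pow 3)))).smul 5
    exact (((Lz.bmul hb1 e1).add (Lz.bmul hb2 e0)).add
      ((Lz.bmul hb3 e2).add (Lz.bmul hb4 e0))).congr fun x => by unfold nGxx; ring
  have hG2b : Bd (fun x => (10 * U 0 x ^ 3 + 10 * (U 0 x ^ 2 * e 0 x))
      + (5 * (U 0 x * e 0 x ^ 2) + e 0 x ^ 3)) :=
    (((U0.pow 3).smul 10).add (((U0.pow 2).mul e0.1).smul 10)).add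
      (((U0.mul (e0.1.pow 2)).smul 5).add (e0.1.pow 3))
  have hGGb : Bd (fun x => ((15 * U 0 x ^ 4 + 20 * (U 0 x ^ 3 * e 0 x))
      + 15 * (U 0 x ^ 2 * e 0 x ^ 2)) + (6 * (U 0 x * e 0 x ^ 3) + e 0 x ^ 4)) :=
    (((U0.pow 4).smul 15).add (((U0.pow 3).mul e0.1).smul 20) |>.add
      (((U0.pow 2).mul (e0.1.pow 2)).smul 15)).add
      (((U0.mul (e0.1.pow 3)).smul 6).add (e0.1.pow 4))
  have hee : Integrable (fun x => e 0 x * e 0 x) := LL e0.2.1 e0.2.1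
  have hG2 : Integrable (fun x => nG2 (U 0 x) (e 0 x)) :=
    (hG2b.mulI hee).congr (Eventually.of_forall fun x => by simp only [nG2]; ring)
  have hGG : Integrable (fun x => nGG (U 0 x) (e 0 x)) :=
    (hGGb.mulI hee).congr (Eventually.of_forall fun x => by simp only [nGG]; ring)
  have hGGz : Lz (fun x => nGG (U 0 x) (e 0 x)) :=
    (Lz.bmul (hGGb.mul e0.1) e0).congr fun x => by simp only [nGG]; ring
  -- left side
  have hW : MemLp (fun x => (-e 3 x - nGx (U 0 x) (U 1 x) (e 0 x) (e 1 x)) + S0 x) 2 :=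
    (e3.2.1.neg.sub hGx.2.1).add hS0
  have hW1 : MemLp (fun x => (-e 4 x - nGxx (U 0 x) (U 1 x) (U 2 x) (e 0 x) (e 1 x) (e 2 x))
      + S1 x) 2 := (e4.2.1.neg.sub hGxx.2.1).add hS1
  have hL : Integrable (fun x => lhsD (p 0 x) (q 0 x) (U 0 x) (U 1 x) (U 2 x) (e 0 x) (e 1 x)
      (e 2 x) (e 3 x) (e 4 x) (S0 x) (S1 x)) := by
    have h := (((p0.smul 2).mulI (LL e0.2.1 hW)).add ((q0.smul 2).mulI (LL e1.2.1 hW1))).sub
      ((q0.smul 2).mulI (LL hG.2.1 hW))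
    refine h.congr (Eventually.of_forall fun x => ?_)
    simp only [lhsD, Pi.add_apply, Pi.sub_apply]
    ring
  -- right side
  have hR : Integrable (fun x => rhsD (p 0 x) (p 1 x) (p 3 x) (q 0 x) (q 1 x) (q 2 x) (q 3 x)
      (U 0 x) (U 1 x) (e 0 x) (e 1 x) (e 2 x) (S0 x) (S1 x)) := by
    have t1 := (q1.smul (-3)).mulI (LL e2.2.1 e2.2.1)
    have t2 := (q3.add (p1.smul (-3))).mulI (LL e1.2.1 e1.2.1)
    have t3 := p3.mulI hee
    have t4 := (p1.smul (-(1 / 3))).mulI hGG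
    have t5 := ((p0.mul U1).smul (-2)).mulI hG2
    have t6 := (p1.smul 2).mulI (LL hG.2.1 e0.2.1)
    have t7 := (q1.smul (-4)).mulI (LL hG.2.1 e2.2.1)
    have t8 := (q2.smul (-2)).mulI (LL hG.2.1 e1.2.1)
    have t9 := (q1.smul (-1)).mulI (LL hG.2.1 hG.2.1)
    have t10 := (p0.smul 2).mulI (LL hS0 e0.2.1)
    have t11 := (q0.smul 2).mulI (LL hS1 e1.2.1)
    have t12 := (q0.smul (-2)).mulI (LL hS0 hG.2.1)
    have h := ((((((((((t1.add t2).add t3).add t4).add t5).add t6).add t7).add t8).add t9).add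
      t10).add t11).add t12
    refine h.congr (Eventually.of_forall fun x => ?_)
    simp only [rhsD, Pi.add_apply]
    ring
  -- the flux
  have hF : Tendsto (fun y => fluxD (p 0 y) (p 1 y) (p 2 y) (q 0 y) (q 1 y) (q 2 y) (U 0 y)
      (U 1 y) (e 0 y) (e 1 y) (e 2 y) (e 3 y)) (cocompact ℝ) (𝓝 0) := by
    have c0 : Lz (fun x => (((-2 * (p 0 x * e 2 x) + 2 * (p 1 x * e 1 x)) + (-1) * (p 2 x * e 0 x))
        + (-2) * (p 0 x * nG (U 0 x) (e 0 x))) * e 0 x) :=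
      Lz.bmul (((((p0.mul e2.1).smul (-2)).add ((p1.mul e1.1).smul 2)).add
        ((p2.mul e0.1).smul (-1))).add ((p0.mul hG.1).smul (-2))) e0
    have c1 : Lz (fun x => (((((p 0 x * e 1 x) + (-2) * (q 0 x * e 3 x)) + 2 * (q 1 x * e 2 x))
        + (-1) * (q 2 x * e 1 x)) + ((-2) * (q 0 x * nGx (U 0 x) (U 1 x) (e 0 x) (e 1 x))
        + 2 * (q 1 x * nG (U 0 x) (e 0 x)))) * e 1 x) :=
      Lz.bmul (((((p0.mul e1.1).add ((q0.mul e3.1).smul (-2))).add ((q1.mul e2.1).smul 2)).add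
        ((q2.mul e1.1).smul (-1))).add (((q0.mul hGx.1).smul (-2)).add
        ((q1.mul hG.1).smul 2))) e1
    have c2 : Lz (fun x => (q 0 x * e 2 x + 2 * (q 0 x * nG (U 0 x) (e 0 x))) * e 2 x) :=
      Lz.bmul ((q0.mul e2.1).add ((q0.mul hG.1).smul 2)) e2
    have c3 : Lz (fun x => (1 / 3 * p 0 x) * nGG (U 0 x) (e 0 x)) :=
      Lz.bmul (p0.smul (1 / 3)) hGGz
    have c4 : Lz (fun x => (q 0 x * nG (U 0 x) (e 0 x)) * nG (U 0 x) (e 0 x)) :=
      Lz.bmul (q0.mul hG.1) hG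
    have h := ((((c0.add c1).add c2).add c3).add c4).2.2
    refine h.congr fun x => ?_
    simp only [fluxD]
    ring
  have hint : (∫ x, (lhsD (p 0 x) (q 0 x) (U 0 x) (U 1 x) (U 2 x) (e 0 x) (e 1 x) (e 2 x)
      (e 3 x) (e 4 x) (S0 x) (S1 x)
      - rhsD (p 0 x) (p 1 x) (p 3 x) (q 0 x) (q 1 x) (q 2 x) (q 3 x) (U 0 x)
      (U 1 x) (e 0 x) (e 1 x) (e 2 x) (S0 x) (S1 x))) = 0 - 0 := by
    refine MeasureTheory.integral_of_hasDerivAt_of_tendsto (f := fun y => fluxD (p 0 y) (p 1 y)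
      (p 2 y) (q 0 y) (q 1 y) (q 2 y) (U 0 y) (U 1 y) (e 0 y) (e 1 y) (e 2 y) (e 3 y))
      (fun x => ?_) (hL.sub hR) (hF.mono_left atBot_le_cocompact)
      (hF.mono_left atTop_le_cocompact)
    have h := flux_hasDeriv e U p q (fun k => if k = 0 then S0 else S1) he.1 hU.1 hp.1 hq.1 x
    simpa using h
  refine ⟨hL, hR, ?_⟩
  rw [integral_sub hL hR] at hint
  linarith

end Pool.Agent.Helper79.KV
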