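import Pool.Agent.Helper41.KV.GoalsC

/-!
# Project KV, packet BEXP: the first two coefficients of the bracket
-/

namespace Pool.Agent.Helper41.KV

open Real MeasureTheory

lemma bexp_contDiff_chiM : ContDiff ℝ (⊤ : ℕ∞) chiM := by
  unfold chiM
  have h : (fun y : ℝ => (1 - Real.tanh (2 * y)) / 2)
      = fun y : ℝ => (1 - Real.sinh (2 * y) / Real.cosh (2 * y)) / 2 := by
    funext y; rw [Real.tanh_eq_sinh_div_cosh]
  rw [h]
  have h2 : ContDiff ℝ (⊤ : ℕ∞) (fun y : ℝ => 2 * y) := contDiff_const.mul contDiff_id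
  have h3 : ContDiff ℝ (⊤ : ℕ∞) (fun y : ℝ => Real.sinh (2 * y) / Real.cosh (2 * y)) :=
    (Real.contDiff_sinh.comp h2).div (Real.contDiff_cosh.comp h2)
      (fun y => (Real.cosh_pos (2 * y)).ne')
  exact (contDiff_const.sub h3).div_const 2

lemma bexp_contDiff_T {a : ℝ → ℝ} (ha : IsT a) : ContDiff ℝ (⊤ : ℕ∞) a := by
  obtain ⟨q, hq⟩ := ha
  have h1 : ContDiff ℝ (⊤ : ℕ∞) (fun y => a y - q.eval y * chiM y) := hq.1
  have h2 : ContDiff ℝ (⊤ : ℕ∞) (fun y => q.eval y * chiM y) := by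
    have h3 : ContDiff ℝ (⊤ : ℕ∞) (fun y : ℝ => q.eval y) := by
      have := Polynomial.contDiff_aeval (𝕜 := ℝ) q (⊤ : ℕ∞)
      simpa [Polynomial.coe_aeval_eq_eval] using this
    exact h3.mul bexp_contDiff_chiM
  have h4 := h1.add h2
  simpa using h4

lemma bexp_dY_lif (m : ℕ) (e : ℝ → ℝ → ℝ) :
    dY (lif m e) = lif m (fun l y => deriv (e l) y) := by
  funext r l y
  simp only [dY, lif]
  rw [deriv_const_mul_field]

theorem thm_BEXP (hQ : S_QF) (_hE : S_ECL1) (hM : S_MCL1) : S_BEXP := by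
  obtain ⟨hTm, hPm, hTT, hPT, hPP, hdT, hdP, hDT, hDP, hrT, hrP, hyT, hyP, hlT, hlP, hQ0, hcT,
    hcP⟩ := hM
  intro α k c w1 F hw1 hF
  have hQs : ContDiff ℝ (⊤ : ℕ∞) Q := hQ.1
  have hws : ContDiff ℝ (⊤ : ℕ∞) w1 := bexp_contDiff_T hw1
  have mTT : ∀ (m m' n : ℕ) (Φ Ψ : F3), n ≤ m + m' → Φ ∈ MT m → Ψ ∈ MT m' → Φ * Ψ ∈ MT n :=
    fun m m' n Φ Ψ hn h h' => hTm n _ hn (hTT m m' Φ Ψ h h')
  have mPT : ∀ (m m' n : ℕ) (Φ Ψ : F3), n ≤ m + m' → Φ ∈ MP m → Ψ ∈ MT m' → Φ * Ψ ∈ MT n :=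
    fun m m' n Φ Ψ hn h h' => hTm n _ hn (hPT m m' Φ Ψ h h')
  set F3' : F3 := F - lif 1 (fun _ _ => k) - lif 2 (fun _ y => c * y) with hF3
  set Qf : F3 := fun _ _ y => Q y with hQf
  set w : F3 := lif 1 (fun _ y => w1 y) with hw
  set K1 : F3 := lif 1 (fun _ _ => k) with hK1
  set T2 : F3 := lif 2 (fun _ y => c * y) with hT2
  have hwT : w ∈ MT 1 := by
    apply hlT
    apply Submodule.subset_span
    refine ⟨0, w1, hw1, ?_⟩
    funext l y; simp
  have hK1P : K1 ∈ MP 1 := by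
    apply hlP
    have h1 : (fun _ _ => k : ℝ → ℝ → ℝ) = k • (fun l y : ℝ => l ^ 0 * y ^ 0) := by
      funext l y; simp
    rw [h1]
    exact Submodule.smul_mem _ _ (Submodule.subset_span ⟨0, 0, rfl⟩)
  have hT2P : T2 ∈ MP 2 := by
    apply hlP
    have h1 : (fun _ y => c * y : ℝ → ℝ → ℝ) = c • (fun l y : ℝ => l ^ 0 * y ^ 1) := by
      funext l y; simp
    rw [h1]
    exact Submodule.smul_mem _ _ (Submodule.subset_span ⟨0, 1, rfl⟩)
  have hFe : F = K1 + (T2 + F3') := by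
    rw [hF3]; abel
  have hTP : T2 + F3' ∈ MP 2 := Submodule.add_mem _ hT2P (hPm 2 3 (by norm_num) hF)
  have hFP : F ∈ MP 1 := by
    rw [hFe]
    exact Submodule.add_mem _ hK1P (hPm 1 2 (by norm_num) hTP)
  have mF : ∀ (m n : ℕ) (Φ : F3), n ≤ m + 1 → Φ ∈ MT m → F * Φ ∈ MT n :=
    fun m n Φ hn h => mPT 1 m n F Φ (by omega) hFP h
  have mS : ∀ (m n : ℕ) (Φ : F3), n ≤ m + 1 → Φ ∈ MT m → (F + w) * Φ ∈ MT n := by
    intro m n Φ hn h
    rw [add_mul]
    exact Submodule.add_mem _ (mF m n Φ hn h) (mTT 1 m n w Φ (by omega) hwT h)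
  have hQT : Qf ∈ MT 0 := hQ0
  -- the remainder
  set X : F3 := (5 : ℝ) • (F3' * (Qf * (Qf * (Qf * Qf))))
    + (20 : ℝ) • ((T2 + F3') * (K1 * (Qf * (Qf * Qf))))
    + (20 : ℝ) • ((T2 + F3') * (w * (Qf * (Qf * Qf))))
    + (10 : ℝ) • ((T2 + F3') * ((T2 + F3') * (Qf * (Qf * Qf))))
    + (10 : ℝ) • ((F + w) * ((F + w) * ((F + w) * (Qf * Qf))))
    + (5 : ℝ) • ((F + w) * ((F + w) * ((F + w) * ((F + w) * Qf))))
    + ((F + w) * ((F + w) * ((F + w) * ((F + w) * w)))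
      + F * ((F + w) * ((F + w) * ((F + w) * w)))
      + F * (F * ((F + w) * ((F + w) * w)))
      + F * (F * (F * ((F + w) * w)))
      + F * (F * (F * (F * w)))) with hX
  have hXT : X ∈ MT 3 := by
    have q2 : Qf * Qf ∈ MT 0 := mTT 0 0 0 _ _ (by norm_num) hQT hQT
    have q3 : Qf * (Qf * Qf) ∈ MT 0 := mTT 0 0 0 _ _ (by norm_num) hQT q2
    have q4 : Qf * (Qf * (Qf * Qf)) ∈ MT 0 := mTT 0 0 0 _ _ (by norm_num) hQT q3
    have a1 : F3' * (Qf * (Qf * (Qf * Qf))) ∈ MT 3 := mPT 3 0 3 _ _ (by norm_num) hF q4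
    have a2' : K1 * (Qf * (Qf * Qf)) ∈ MT 1 := mPT 1 0 1 _ _ (by norm_num) hK1P q3
    have a2 : (T2 + F3') * (K1 * (Qf * (Qf * Qf))) ∈ MT 3 := mPT 2 1 3 _ _ (by norm_num) hTP a2'
    have a3' : w * (Qf * (Qf * Qf)) ∈ MT 1 := mTT 1 0 1 _ _ (by norm_num) hwT q3
    have a3 : (T2 + F3') * (w * (Qf * (Qf * Qf))) ∈ MT 3 := mPT 2 1 3 _ _ (by norm_num) hTP a3'
    have a4' : (T2 + F3') * (Qf * (Qf * Qf)) ∈ MT 2 := mPT 2 0 2 _ _ (by norm_num) hTP q3
    have a4 : (T2 + F3') * ((T2 + F3') * (Qf * (Qf * Qf))) ∈ MT 3 :=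
      mPT 2 2 3 _ _ (by norm_num) hTP a4'
    have s1 : (F + w) * (Qf * Qf) ∈ MT 1 := mS 0 1 _ (by norm_num) q2
    have s2 : (F + w) * ((F + w) * (Qf * Qf)) ∈ MT 2 := mS 1 2 _ (by norm_num) s1
    have s3 : (F + w) * ((F + w) * ((F + w) * (Qf * Qf))) ∈ MT 3 := mS 2 3 _ (by norm_num) s2
    have t1 : (F + w) * Qf ∈ MT 1 := mS 0 1 _ (by norm_num) hQT
    have t2 : (F + w) * ((F + w) * Qf) ∈ MT 2 := mS 1 2 _ (by norm_num) t1
    have t3 : (F + w) * ((F + w) * ((F + w) * Qf)) ∈ MT 3 := mS 2 3 _ (by norm_num) t2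
    have t4 : (F + w) * ((F + w) * ((F + w) * ((F + w) * Qf))) ∈ MT 3 :=
      mS 3 3 _ (by norm_num) t3
    have u1 : (F + w) * w ∈ MT 2 := mS 1 2 _ (by norm_num) hwT
    have u2 : (F + w) * ((F + w) * w) ∈ MT 3 := mS 2 3 _ (by norm_num) u1
    have u3 : (F + w) * ((F + w) * ((F + w) * w)) ∈ MT 3 := mS 3 3 _ (by norm_num) u2
    have u4 : (F + w) * ((F + w) * ((F + w) * ((F + w) * w))) ∈ MT 3 := mS 3 3 _ (by norm_num) u3
    have v1 : F * w ∈ MT 2 := mF 1 2 _ (by norm_num) hwT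
    have v2 : F * (F * w) ∈ MT 3 := mF 2 3 _ (by norm_num) v1
    have v3 : F * (F * (F * w)) ∈ MT 3 := mF 3 3 _ (by norm_num) v2
    have v4 : F * (F * (F * (F * w))) ∈ MT 3 := mF 3 3 _ (by norm_num) v3
    have v5 : F * ((F + w) * ((F + w) * ((F + w) * w))) ∈ MT 3 := mF 3 3 _ (by norm_num) u3
    have v6 : F * ((F + w) * ((F + w) * w)) ∈ MT 3 := mF 3 3 _ (by norm_num) u2
    have v7 : F * (F * ((F + w) * ((F + w) * w))) ∈ MT 3 := mF 3 3 _ (by norm_num) v6
    have v8 : F * ((F + w) * w) ∈ MT 3 := mF 2 3 _ (by norm_num) u1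
    have v9 : F * (F * ((F + w) * w)) ∈ MT 3 := mF 3 3 _ (by norm_num) v8
    have v10 : F * (F * (F * ((F + w) * w))) ∈ MT 3 := mF 3 3 _ (by norm_num) v9
    exact Submodule.add_mem _ (Submodule.add_mem _ (Submodule.add_mem _ (Submodule.add_mem _
      (Submodule.add_mem _ (Submodule.add_mem _ (Submodule.smul_mem _ _ a1)
        (Submodule.smul_mem _ _ a2)) (Submodule.smul_mem _ _ a3)) (Submodule.smul_mem _ _ a4))
          (Submodule.smul_mem _ _ s3)) (Submodule.smul_mem _ _ t4))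
      (Submodule.add_mem _ (Submodule.add_mem _ (Submodule.add_mem _
        (Submodule.add_mem _ u4 v5) v7) v10) v4)
  have hkey : Bk α F w
      - lif 1 (fun _ y => deriv (fun y' => 5 * Q y' ^ 4 * k - Lop w1 y') y - (2 * α + 1) * Lam Q y)
      - lif 2 (fun _ y => 2 * α * w1 y
          + deriv (fun y' => 5 * Q y' ^ 4 * (c * y') + 10 * Q y' ^ 3 * (k + w1 y') ^ 2) y
          - (2 * α + 1) * (w1 y / 2 + y * deriv w1 y)) = dY X := by
    funext r l y
    have hdw : dY w = lif 1 (fun _ y => deriv w1 y) := bexp_dY_lif 1 _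
    have hddw : dY (dY w) = lif 1 (fun _ y => deriv (deriv w1) y) := by
      rw [hdw]; exact bexp_dY_lif 1 _
    have hD : Dop α w r l y = 2 * α * r * w1 y := by
      simp only [Dop, hw, lif, pow_one]
      rw [deriv_mul_const_field, deriv_const]
      simp
    have hd1 : Differentiable ℝ w1 := hws.differentiable (by simp)
    have hs1 : ContDiff ℝ (⊤ : ℕ∞) (deriv w1) := by
      exact (contDiff_infty_iff_deriv.1 hws).2
    have hs2 : ContDiff ℝ (⊤ : ℕ∞) (deriv (deriv w1)) := (contDiff_infty_iff_deriv.1 hs1).2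
    have hf1 : Differentiable ℝ (fun y' => 5 * Q y' ^ 4 * k - Lop w1 y') := by
      have h : ContDiff ℝ (⊤ : ℕ∞) (fun y' => 5 * Q y' ^ 4 * k - Lop w1 y') := by
        unfold Lop
        fun_prop
      exact h.differentiable (by simp)
    have hf2 : Differentiable ℝ
        (fun y' => 5 * Q y' ^ 4 * (c * y') + 10 * Q y' ^ 3 * (k + w1 y') ^ 2) := by
      have h : ContDiff ℝ (⊤ : ℕ∞)
          (fun y' => 5 * Q y' ^ 4 * (c * y') + 10 * Q y' ^ 3 * (k + w1 y') ^ 2) := by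
        fun_prop
      exact h.differentiable (by simp)
    have hXd : Differentiable ℝ (fun y' => X r l y') := by
      have h := hcT X (hTm 0 3 (by norm_num) hXT)
      have h2 : ContDiff ℝ (⊤ : ℕ∞) (fun y' : ℝ => (r, l, y')) := by fun_prop
      have h3 := h.comp h2
      exact h3.differentiable (by simp)
    have hA : (fun y' => dY (dY w) r l y' - w r l y'
        + ((Q y' + F r l y' + w r l y') ^ 5 - F r l y' ^ 5 - Q y' ^ 5))
        = fun y' => (r * (5 * Q y' ^ 4 * k - Lop w1 y')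
          + r ^ 2 * (5 * Q y' ^ 4 * (c * y') + 10 * Q y' ^ 3 * (k + w1 y') ^ 2)) + X r l y' := by
      funext y'
      rw [hddw]
      have hFv : F r l y' = r * k + (r ^ 2 * (c * y') + F3' r l y') := by
        have h := congrFun (congrFun (congrFun hFe r) l) y'
        simpa [hK1, hT2, lif] using h
      have hwv : w r l y' = r * w1 y' := by simp [hw, lif]
      have hXv : X r l y' = 5 * (F3' r l y' * (Q y' * (Q y' * (Q y' * Q y'))))
          + 20 * ((r ^ 2 * (c * y') + F3' r l y') * ((r * k) * (Q y' * (Q y' * Q y'))))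
          + 20 * ((r ^ 2 * (c * y') + F3' r l y') * ((r * w1 y') * (Q y' * (Q y' * Q y'))))
          + 10 * ((r ^ 2 * (c * y') + F3' r l y') * ((r ^ 2 * (c * y') + F3' r l y')
              * (Q y' * (Q y' * Q y'))))
          + 10 * ((F r l y' + r * w1 y') * ((F r l y' + r * w1 y') * ((F r l y' + r * w1 y')
              * (Q y' * Q y'))))
          + 5 * ((F r l y' + r * w1 y') * ((F r l y' + r * w1 y') * ((F r l y' + r * w1 y')
              * ((F r l y' + r * w1 y') * Q y'))))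
          + ((F r l y' + r * w1 y') * ((F r l y' + r * w1 y') * ((F r l y' + r * w1 y')
              * ((F r l y' + r * w1 y') * (r * w1 y'))))
            + F r l y' * ((F r l y' + r * w1 y') * ((F r l y' + r * w1 y')
              * ((F r l y' + r * w1 y') * (r * w1 y'))))
            + F r l y' * (F r l y' * ((F r l y' + r * w1 y') * ((F r l y' + r * w1 y')
              * (r * w1 y'))))
            + F r l y' * (F r l y' * (F r l y' * ((F r l y' + r * w1 y') * (r * w1 y'))))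
            + F r l y' * (F r l y' * (F r l y' * (F r l y' * (r * w1 y'))))) := by
        rw [hX]
        simp only [Pi.add_apply, Pi.mul_apply, Pi.smul_apply, smul_eq_mul, hwv, hQf]
        simp only [hK1, hT2, lif, pow_one]
      rw [hXv, hwv]
      simp only [lif, Lop, pow_one]
      rw [hFv]
      ring
    simp only [Pi.sub_apply]
    unfold Bk
    rw [hD, hA, hdw]
    have hder : deriv (fun y' => (r * (5 * Q y' ^ 4 * k - Lop w1 y')
          + r ^ 2 * (5 * Q y' ^ 4 * (c * y') + 10 * Q y' ^ 3 * (k + w1 y') ^ 2)) + X r l y') y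
        = (r * deriv (fun y' => 5 * Q y' ^ 4 * k - Lop w1 y') y
          + r ^ 2 * deriv (fun y' => 5 * Q y' ^ 4 * (c * y') + 10 * Q y' ^ 3 * (k + w1 y') ^ 2) y)
          + deriv (fun y' => X r l y') y :=
      ((((hf1 y).hasDerivAt.const_mul r).add ((hf2 y).hasDerivAt.const_mul (r ^ 2))).add
        (hXd y).hasDerivAt).deriv
    rw [hder]
    simp only [lif, dY, hw, pow_one]
    ring
  rw [hkey]
  exact hdT 3 X hXT

end Pool.Agent.Helper41.KV
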