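import Pool.Agent.Helper48.KV.GoalsJ

/-!
# Project KV, section G5, packet JPT: the pointwise inequality for the integrand
-/

open MeasureTheory Set Filter Topology

namespace Pool.Agent.Helper79.KV

open Pool.Agent.Helper33.KV Pool.Agent.Helper41.KV Pool.Agent.Helper48.KV

/-- the terms in the transition region -/
lemma jpt_near {B D lm a1 a2 a3 a4 u3 v3 v2 W0 W1 W2 : ℝ} (hB : 1 ≤ B) (hD : 0 ≤ D)
    (hl : 0 ≤ lm) (h1 : |a1| ≤ B ^ 2 * D * lm ^ 2) (h2 : |a2| ≤ B ^ 2 * D * lm ^ 4)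
    (h3 : |a3| ≤ B ^ 2 * D) (h4 : |a4| ≤ B ^ 2 * D * lm ^ 2) (hu : |u3| ≤ B * D)
    (hv3 : |v3| ≤ B * D * lm ^ 2) (hv2 : |v2| ≤ B * D * lm ^ 3) :
    -3 * a2 * W2 ^ 2 - 3 * a1 * W1 ^ 2 + a3 * W0 ^ 2 + a4 * W1 ^ 2 - a1 * W0 ^ 6 / 3
      + 2 * a1 * W0 ^ 6 - 4 * a2 * W0 ^ 5 * W2 - a2 * W0 ^ 10 - a4 * W0 ^ 6 / 3
      + u3 * W0 ^ 2 + v3 * W1 ^ 2 + 2 * v2 * (|W0| ^ 5 * |W1|)
      ≤ 10 * B ^ 2 * (D * (lm ^ 4 * W2 ^ 2 + lm ^ 2 * W1 ^ 2 + W0 ^ 2 + lm ^ 4 * W0 ^ 10)) := by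
  have hBD : B * D ≤ B ^ 2 * D := by
    apply mul_le_mul_of_nonneg_right _ hD
    nlinarith
  set M : ℝ := B ^ 2 * D with hM
  have hM0 : 0 ≤ M := by positivity
  have t1 : -3 * a2 * W2 ^ 2 ≤ 3 * (M * (lm ^ 4 * W2 ^ 2)) := by
    have h := mul_le_mul_of_nonneg_right h2 (sq_nonneg W2)
    have h' := neg_abs_le a2
    nlinarith [mul_le_mul_of_nonneg_right h' (sq_nonneg W2)]
  have t2 : -(3 * a1 * W1 ^ 2) ≤ 3 * (M * (lm ^ 2 * W1 ^ 2)) := by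
    have h := mul_le_mul_of_nonneg_right h1 (sq_nonneg W1)
    have h' := neg_abs_le a1
    nlinarith [mul_le_mul_of_nonneg_right h' (sq_nonneg W1)]
  have t3 : a3 * W0 ^ 2 ≤ M * W0 ^ 2 :=
    mul_le_mul_of_nonneg_right ((le_abs_self _).trans h3) (sq_nonneg _)
  have t4 : a4 * W1 ^ 2 ≤ M * (lm ^ 2 * W1 ^ 2) := by
    have h := mul_le_mul_of_nonneg_right ((le_abs_self a4).trans h4) (sq_nonneg W1)
    linarith
  have s6 : lm ^ 2 * W0 ^ 6 ≤ (W0 ^ 2 + lm ^ 4 * W0 ^ 10) / 2 := by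
    nlinarith [sq_nonneg (W0 - lm ^ 2 * W0 ^ 5)]
  have p6 : 0 ≤ W0 ^ 6 := by positivity
  have t5 : -(a1 * W0 ^ 6 / 3) + 2 * a1 * W0 ^ 6 ≤ 5 / 3 * (M * (lm ^ 2 * W0 ^ 6)) := by
    have h := mul_le_mul_of_nonneg_right ((le_abs_self a1).trans h1) p6
    linarith
  have t6 : -(a4 * W0 ^ 6 / 3) ≤ 1 / 3 * (M * (lm ^ 2 * W0 ^ 6)) := by
    have h := mul_le_mul_of_nonneg_right ((neg_le_abs a4).trans h4) p6
    linarith
  have s5 : |W0 ^ 5 * W2| ≤ (W0 ^ 10 + W2 ^ 2) / 2 := by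
    rw [abs_le]; constructor <;> nlinarith [sq_nonneg (W0 ^ 5 + W2), sq_nonneg (W0 ^ 5 - W2)]
  have t7 : -(4 * a2 * W0 ^ 5 * W2) ≤ 2 * (M * (lm ^ 4 * (W0 ^ 10 + W2 ^ 2))) := by
    have h0 : -(4 * a2 * W0 ^ 5 * W2) ≤ 4 * (|a2| * |W0 ^ 5 * W2|) := by
      rw [← abs_mul]
      have := neg_abs_le (a2 * (W0 ^ 5 * W2))
      linarith
    have h1' : |a2| * |W0 ^ 5 * W2| ≤ (M * lm ^ 4) * ((W0 ^ 10 + W2 ^ 2) / 2) :=
      mul_le_mul h2 s5 (abs_nonneg _) (by positivity)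
    linarith
  have p10 : 0 ≤ W0 ^ 10 := by positivity
  have t8 : -(a2 * W0 ^ 10) ≤ M * (lm ^ 4 * W0 ^ 10) := by
    have h := mul_le_mul_of_nonneg_right ((neg_le_abs a2).trans h2) p10
    linarith
  have t9 : u3 * W0 ^ 2 ≤ M * W0 ^ 2 :=
    mul_le_mul_of_nonneg_right ((le_abs_self _).trans (hu.trans hBD)) (sq_nonneg _)
  have hv3' : |v3| ≤ M * lm ^ 2 := hv3.trans (mul_le_mul_of_nonneg_right hBD (sq_nonneg _))
  have t10 : v3 * W1 ^ 2 ≤ M * (lm ^ 2 * W1 ^ 2) := by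
    have h := mul_le_mul_of_nonneg_right ((le_abs_self v3).trans hv3') (sq_nonneg W1)
    linarith
  have hv2' : |v2| ≤ M * lm ^ 3 := hv2.trans (mul_le_mul_of_nonneg_right hBD (by positivity))
  have s7 : 2 * (lm ^ 3 * (|W0| ^ 5 * |W1|)) ≤ lm ^ 4 * W0 ^ 10 + lm ^ 2 * W1 ^ 2 := by
    have e1 : |W0| ^ 10 = W0 ^ 10 := by
      rw [← abs_pow]; exact abs_of_nonneg p10
    have e2 : |W1| ^ 2 = W1 ^ 2 := sq_abs W1
    have h := sq_nonneg (lm ^ 2 * |W0| ^ 5 - lm * |W1|)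
    have e3 : (lm ^ 2 * |W0| ^ 5 - lm * |W1|) ^ 2 = lm ^ 4 * |W0| ^ 10
        - 2 * (lm ^ 3 * (|W0| ^ 5 * |W1|)) + lm ^ 2 * |W1| ^ 2 := by ring
    rw [e3, e1, e2] at h
    linarith
  have t11 : 2 * v2 * (|W0| ^ 5 * |W1|) ≤ M * (lm ^ 4 * W0 ^ 10 + lm ^ 2 * W1 ^ 2) := by
    have h0 : 0 ≤ |W0| ^ 5 * |W1| := by positivity
    have h := mul_le_mul_of_nonneg_right ((le_abs_self v2).trans hv2') h0
    have h2' := mul_le_mul_of_nonneg_left s7 hM0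
    linarith
  have s6' := mul_le_mul_of_nonneg_left s6 hM0
  have n1 : 0 ≤ M * (lm ^ 4 * W2 ^ 2) := by positivity
  have n2 : 0 ≤ M * (lm ^ 2 * W1 ^ 2) := by positivity
  have n3 : 0 ≤ M * W0 ^ 2 := by positivity
  have n4 : 0 ≤ M * (lm ^ 4 * W0 ^ 10) := by positivity
  have e : 10 * B ^ 2 * (D * (lm ^ 4 * W2 ^ 2 + lm ^ 2 * W1 ^ 2 + W0 ^ 2 + lm ^ 4 * W0 ^ 10))
      = 10 * (M * (lm ^ 4 * W2 ^ 2)) + 10 * (M * (lm ^ 2 * W1 ^ 2)) + 10 * (M * W0 ^ 2)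
        + 10 * (M * (lm ^ 4 * W0 ^ 10)) := by rw [hM]; ring
  rw [e]
  linarith

/-- the main part -/
lemma jpt_main {c P Q R E h η tz W0 W1 W2 U1 Ut S0 S1 p3 q2 q3 B u3 v2 v3 G GG G2 : ℝ}
    (hc : 0 ≤ c) (hP0 : 0 ≤ P) (hPh : P ≤ h) (hQ0 : 0 ≤ Q) (hQh : Q ≤ h) (hQt : Q ≤ tz * h)
    (hR0 : 0 ≤ R) (hRQ : R ≤ Q) (hE0 : 0 ≤ E) (hEh : E ≤ h) (hER : E = η * R) (hB : 0 ≤ B)
    (hp3 : |p3| ≤ B * (E * c) + u3) (hq2 : |q2| ≤ R * c + v2) (hq3 : |q3| ≤ B * (R * c) + v3)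
    (hGG : |GG| ≤ 60 * (W0 ^ 2 + W0 ^ 6)) (hG : |G| ≤ 40 * (|W0| + |W0| ^ 5))
    (hGW : |G * W0| ≤ 40 * (W0 ^ 2 + W0 ^ 6)) (hGs : G ^ 2 ≤ 3200 * (W0 ^ 2 + W0 ^ 10))
    (hG1 : |G2| * |U1| ≤ 40 * (W0 ^ 2 + |U1| * |W0| ^ 5))
    (hGt : |G2| * |Ut| ≤ 40 * (W0 ^ 2 + |Ut| * |W0| ^ 5)) :
    -3 * (R * c) * W2 ^ 2 + (q3 - 3 * (-(E * c))) * W1 ^ 2 + p3 * W0 ^ 2 - (-(E * c)) * GG / 3
      - 2 * (P * c) * U1 * G2 + 2 * (-(E * c)) * G * W0 - G * (4 * (R * c) * W2 + 2 * q2 * W1)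
      - (R * c) * G ^ 2 + 2 * (P * c * S0 * W0 + Q * c * S1 * W1 - Q * c * S0 * G)
      - 3 * η * E * c * W0 ^ 2 + 3 * E * c * (W1 ^ 2 - GG / 3) - 2 * (Q * c) * G2 * Ut
      ≤ -(5 / 2) * (c * R * (W2 + η * W0) ^ 2) + 6 * (c * E * (W0 * W2 + W1 ^ 2))
        + (30000 + B) * (c * (h * W0 ^ 2 + Q * W1 ^ 2)) + 30000 * (c * E * W0 ^ 6)
        + 30000 * (c * R * W0 ^ 10)
        + 30000 * (c * h * ((|U1| + tz * |Ut|) * |W0| ^ 5))
        + 30000 * (c * (h * (|S0| * |W0|) + Q * (|S1| * |W1|) + Q * (|S0| * |W0| ^ 5)))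
        + u3 * W0 ^ 2 + v3 * W1 ^ 2 + 2 * v2 * (|G| * |W1|) := by
  have hh0 : 0 ≤ h := hP0.trans hPh
  have hEc : 0 ≤ E * c := mul_nonneg hE0 hc
  have hRc : 0 ≤ R * c := mul_nonneg hR0 hc
  have hQc : 0 ≤ Q * c := mul_nonneg hQ0 hc
  have hPc : 0 ≤ P * c := mul_nonneg hP0 hc
  have hhc : 0 ≤ h * c := mul_nonneg hh0 hc
  have hEhc : E * c ≤ h * c := mul_le_mul_of_nonneg_right hEh hc
  have hRhc : R * c ≤ h * c := mul_le_mul_of_nonneg_right (hRQ.trans hQh) hc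
  have hRQc : R * c ≤ Q * c := mul_le_mul_of_nonneg_right hRQ hc
  have hQhc : Q * c ≤ h * c := mul_le_mul_of_nonneg_right hQh hc
  have hPhc : P * c ≤ h * c := mul_le_mul_of_nonneg_right hPh hc
  have hQtc : Q * c ≤ tz * h * c := mul_le_mul_of_nonneg_right hQt hc
  have w0 : 0 ≤ W0 ^ 2 := sq_nonneg _
  have w1 : 0 ≤ W1 ^ 2 := sq_nonneg _
  have w6 : 0 ≤ W0 ^ 6 := by positivity
  have w10 : 0 ≤ W0 ^ 10 := by positivity
  have a5 : 0 ≤ |W0| ^ 5 := by positivity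
  -- quadratic part
  have T1 : -3 * (R * c) * W2 ^ 2 + 3 * (E * c) * W1 ^ 2 + 3 * E * c * W1 ^ 2
      - 3 * η * E * c * W0 ^ 2 = -3 * (c * R * (W2 + η * W0) ^ 2)
        + 6 * (c * E * (W0 * W2 + W1 ^ 2)) := by
    rw [hER]; ring
  have T2 : q3 * W1 ^ 2 ≤ B * (Q * c * W1 ^ 2) + v3 * W1 ^ 2 := by
    have h1 := mul_le_mul_of_nonneg_right ((le_abs_self q3).trans hq3) w1
    have h2 := mul_le_mul_of_nonneg_left (mul_le_mul_of_nonneg_right hRQc w1) hB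
    linarith
  have T3 : p3 * W0 ^ 2 ≤ B * (h * c * W0 ^ 2) + u3 * W0 ^ 2 := by
    have h1 := mul_le_mul_of_nonneg_right ((le_abs_self p3).trans hp3) w0
    have h2 := mul_le_mul_of_nonneg_left (mul_le_mul_of_nonneg_right hEhc w0) hB
    linarith
  have hE2 : E * c * W0 ^ 2 ≤ h * c * W0 ^ 2 := mul_le_mul_of_nonneg_right hEhc w0
  have hR2 : R * c * W0 ^ 2 ≤ h * c * W0 ^ 2 := mul_le_mul_of_nonneg_right hRhc w0
  have T4 : (E * c) * GG / 3 ≤ 20 * (h * c * W0 ^ 2) + 20 * (E * c * W0 ^ 6) := by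
    have h1 := mul_le_mul_of_nonneg_left ((le_abs_self GG).trans hGG) hEc
    linarith
  have T5 : -(2 * (P * c) * U1 * G2) ≤ 80 * (h * c * W0 ^ 2)
      + 80 * (h * c * (|U1| * |W0| ^ 5)) := by
    have h0 : -(U1 * G2) ≤ |G2| * |U1| := by
      rw [← abs_mul, mul_comm G2 U1]; exact neg_le_abs _
    have h1 := mul_le_mul_of_nonneg_left h0 hPc
    have h2 : (P * c) * (|G2| * |U1|) ≤ (h * c) * (40 * (W0 ^ 2 + |U1| * |W0| ^ 5)) :=
      mul_le_mul hPhc hG1 (by positivity) hhc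
    linarith
  have T6 : -(2 * (E * c) * G * W0) ≤ 80 * (h * c * W0 ^ 2) + 80 * (E * c * W0 ^ 6) := by
    have h1 := mul_le_mul_of_nonneg_left ((neg_le_abs (G * W0)).trans hGW) hEc
    linarith
  have hRG : R * c * G ^ 2 ≤ 3200 * (h * c * W0 ^ 2) + 3200 * (R * c * W0 ^ 10) := by
    have h1 := mul_le_mul_of_nonneg_left hGs hRc
    linarith
  have T7 : -(G * (4 * (R * c) * W2)) ≤ 1 / 2 * (c * R * (W2 + η * W0) ^ 2)
      + 8 * (R * c * G ^ 2) + (160 * (h * c * W0 ^ 2) + 160 * (E * c * W0 ^ 6)) := by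
    have h1 := mul_le_mul_of_nonneg_left ((le_abs_self (G * W0)).trans hGW) hEc
    have h2 : -(G * (4 * (R * c) * W2)) = -4 * (R * c) * (G * (W2 + η * W0))
        + 4 * (E * c * (G * W0)) := by rw [hER]; ring
    have h3 : -4 * (R * c) * (G * (W2 + η * W0)) ≤ 1 / 2 * (c * R * (W2 + η * W0) ^ 2)
      + 8 * (R * c * G ^ 2) := by
      have h4 : 0 ≤ R * c * ((W2 + η * W0) + 4 * G) ^ 2 := mul_nonneg hRc (sq_nonneg _)
      linarith
    rw [h2]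
    linarith
  have T8 : -(G * (2 * q2 * W1)) ≤ R * c * G ^ 2 + Q * c * W1 ^ 2 + 2 * v2 * (|G| * |W1|) := by
    have h0 : -(G * (2 * q2 * W1)) ≤ 2 * (|q2| * (|G| * |W1|)) := by
      rw [← abs_mul, ← abs_mul]
      have := neg_le_abs (q2 * (G * W1))
      linarith
    have h1 := mul_le_mul_of_nonneg_right hq2 (mul_nonneg (abs_nonneg G) (abs_nonneg W1))
    have h2 : 2 * (|G| * |W1|) ≤ G ^ 2 + W1 ^ 2 := by
      have e1 : |G| ^ 2 = G ^ 2 := sq_abs G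
      have e2 : |W1| ^ 2 = W1 ^ 2 := sq_abs W1
      nlinarith [sq_nonneg (|G| - |W1|)]
    have h3 := mul_le_mul_of_nonneg_left h2 hRc
    have h4 := mul_le_mul_of_nonneg_right hRQc w1
    linarith
  have T9 : 0 ≤ R * c * G ^ 2 := mul_nonneg hRc (sq_nonneg _)
  have T10 : 2 * (P * c * S0 * W0) ≤ 2 * (h * c * (|S0| * |W0|)) := by
    have h0 : S0 * W0 ≤ |S0| * |W0| := by rw [← abs_mul]; exact le_abs_self _
    have h1 := mul_le_mul_of_nonneg_left h0 hPc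
    have h2 := mul_le_mul_of_nonneg_right hPhc (mul_nonneg (abs_nonneg S0) (abs_nonneg W0))
    linarith
  have T11 : 2 * (Q * c * S1 * W1) ≤ 2 * (Q * c * (|S1| * |W1|)) := by
    have h0 : S1 * W1 ≤ |S1| * |W1| := by rw [← abs_mul]; exact le_abs_self _
    have h1 := mul_le_mul_of_nonneg_left h0 hQc
    linarith
  have T12 : -(2 * (Q * c * S0 * G)) ≤ 80 * (h * c * (|S0| * |W0|))
      + 80 * (Q * c * (|S0| * |W0| ^ 5)) := by
    have h0 : -(S0 * G) ≤ |S0| * |G| := by rw [← abs_mul]; exact neg_le_abs _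
    have h1 := mul_le_mul_of_nonneg_left h0 hQc
    have h2 := mul_le_mul_of_nonneg_left (mul_le_mul_of_nonneg_left hG (abs_nonneg S0)) hQc
    have h3 := mul_le_mul_of_nonneg_right hQhc (mul_nonneg (abs_nonneg S0) (abs_nonneg W0))
    linarith
  have T13 : 3 * E * c * (-GG / 3) ≤ 60 * (h * c * W0 ^ 2) + 60 * (E * c * W0 ^ 6) := by
    have h1 := mul_le_mul_of_nonneg_left ((neg_le_abs GG).trans hGG) hEc
    linarith
  have T14 : -(2 * (Q * c) * G2 * Ut) ≤ 80 * (h * c * W0 ^ 2)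
      + 80 * (tz * h * c * (|Ut| * |W0| ^ 5)) := by
    have h0 : -(G2 * Ut) ≤ |G2| * |Ut| := by rw [← abs_mul]; exact neg_le_abs _
    have h1 := mul_le_mul_of_nonneg_left h0 hQc
    have h2 := mul_le_mul_of_nonneg_left hGt hQc
    have h3 := mul_le_mul_of_nonneg_right hQhc w0
    have h4 := mul_le_mul_of_nonneg_right hQtc (mul_nonneg (abs_nonneg Ut) a5)
    linarith
  have n1 : 0 ≤ h * c * W0 ^ 2 := mul_nonneg hhc w0
  have n2 : 0 ≤ Q * c * W1 ^ 2 := mul_nonneg hQc w1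
  have n3 : 0 ≤ E * c * W0 ^ 6 := mul_nonneg hEc w6
  have n4 : 0 ≤ R * c * W0 ^ 10 := mul_nonneg hRc w10
  have n5 : 0 ≤ h * c * (|U1| * |W0| ^ 5) := by positivity
  have n6 : 0 ≤ tz * h * c * (|Ut| * |W0| ^ 5) :=
    mul_nonneg (hQc.trans hQtc) (mul_nonneg (abs_nonneg Ut) a5)
  have n7 : 0 ≤ h * c * (|S0| * |W0|) := by positivity
  have n8 : 0 ≤ Q * c * (|S1| * |W1|) := by positivity
  have n9 : 0 ≤ Q * c * (|S0| * |W0| ^ 5) := by positivity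
  have e1 : -3 * (R * c) * W2 ^ 2 + (q3 - 3 * (-(E * c))) * W1 ^ 2 + p3 * W0 ^ 2
      - (-(E * c)) * GG / 3
      - 2 * (P * c) * U1 * G2 + 2 * (-(E * c)) * G * W0 - G * (4 * (R * c) * W2 + 2 * q2 * W1)
      - (R * c) * G ^ 2 + 2 * (P * c * S0 * W0 + Q * c * S1 * W1 - Q * c * S0 * G)
      - 3 * η * E * c * W0 ^ 2 + 3 * E * c * (W1 ^ 2 - GG / 3) - 2 * (Q * c) * G2 * Ut
      = (-3 * (R * c) * W2 ^ 2 + 3 * (E * c) * W1 ^ 2 + 3 * E * c * W1 ^ 2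
      - 3 * η * E * c * W0 ^ 2) + q3 * W1 ^ 2 + p3 * W0 ^ 2 + (E * c) * GG / 3
      + -(2 * (P * c) * U1 * G2) + -(2 * (E * c) * G * W0) + -(G * (4 * (R * c) * W2))
      + -(G * (2 * q2 * W1)) - R * c * G ^ 2 + 2 * (P * c * S0 * W0) + 2 * (Q * c * S1 * W1)
      + -(2 * (Q * c * S0 * G)) + 3 * E * c * (-GG / 3) + -(2 * (Q * c) * G2 * Ut) := by ring
  rw [e1, T1]
  have f1 : (30000 + B) * (c * (h * W0 ^ 2 + Q * W1 ^ 2))
      = 30000 * (h * c * W0 ^ 2) + 30000 * (Q * c * W1 ^ 2) + B * (h * c * W0 ^ 2)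
        + B * (Q * c * W1 ^ 2) := by ring
  have f2 : 30000 * (c * h * ((|U1| + tz * |Ut|) * |W0| ^ 5))
      = 30000 * (h * c * (|U1| * |W0| ^ 5)) + 30000 * (tz * h * c * (|Ut| * |W0| ^ 5)) := by ring
  have f3 : 30000 * (c * (h * (|S0| * |W0|) + Q * (|S1| * |W1|) + Q * (|S0| * |W0| ^ 5)))
      = 30000 * (h * c * (|S0| * |W0|)) + 30000 * (Q * c * (|S1| * |W1|))
        + 30000 * (Q * c * (|S0| * |W0| ^ 5)) := by ring
  have f4 : 30000 * (c * E * W0 ^ 6) = 30000 * (E * c * W0 ^ 6) := by ring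
  have f5 : 30000 * (c * R * W0 ^ 10) = 30000 * (R * c * W0 ^ 10) := by ring
  rw [f1, f2, f3, f4, f5]
  linarith

/-- the nonlinear quantities for a bounded field -/
lemma jpt_G (h5 : S_ALG) {U U1 Ut : ℝ} (b1 : |U| ≤ 1) (b2 : |U| ^ 3 * |U1| ≤ 1)
    (b3 : |U| ^ 3 * |Ut| ≤ 1) (W0 : ℝ) :
    |nGG U W0| ≤ 60 * (W0 ^ 2 + W0 ^ 6) ∧ |nG U W0| ≤ 40 * (|W0| + |W0| ^ 5) ∧
    |nG U W0 * W0| ≤ 40 * (W0 ^ 2 + W0 ^ 6) ∧ nG U W0 ^ 2 ≤ 3200 * (W0 ^ 2 + W0 ^ 10) ∧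
    |nG2 U W0| * |U1| ≤ 40 * (W0 ^ 2 + |U1| * |W0| ^ 5) ∧
    |nG2 U W0| * |Ut| ≤ 40 * (W0 ^ 2 + |Ut| * |W0| ^ 5) := by
  obtain ⟨a1, a2, a3, a4, a5, -⟩ := h5 U W0
  have hU2 : U ^ 2 ≤ 1 := by
    rw [← sq_abs]
    exact pow_le_one₀ (abs_nonneg _) b1
  have hU20 : 0 ≤ U ^ 2 := sq_nonneg _
  have hU4 : U ^ 4 ≤ 1 := by
    have : U ^ 4 = (U ^ 2) ^ 2 := by ring
    rw [this]; exact pow_le_one₀ hU20 hU2
  have hU8 : U ^ 8 ≤ 1 := by
    have : U ^ 8 = (U ^ 2) ^ 4 := by ring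
    rw [this]; exact pow_le_one₀ hU20 hU2
  have w2 : 0 ≤ W0 ^ 2 := sq_nonneg _
  have c1 : U ^ 4 * W0 ^ 2 ≤ 1 * W0 ^ 2 := mul_le_mul_of_nonneg_right hU4 w2
  have c2 : U ^ 8 * W0 ^ 2 ≤ 1 * W0 ^ 2 := mul_le_mul_of_nonneg_right hU8 w2
  have c3 : U ^ 4 * |W0| ≤ 1 * |W0| := mul_le_mul_of_nonneg_right hU4 (abs_nonneg _)
  refine ⟨by linarith, by linarith, by linarith, by linarith, ?_, ?_⟩
  · have e1 := mul_le_mul_of_nonneg_right a4 (abs_nonneg U1)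
    have e2 := mul_le_mul_of_nonneg_right b2 w2
    linarith
  · have e1 := mul_le_mul_of_nonneg_right a4 (abs_nonneg Ut)
    have e2 := mul_le_mul_of_nonneg_right b3 w2
    linarith

theorem jpt (h1 : S_JW) (h2 : S_CUT) (h3 : S_JFLD) (h4 : S_SCL) (h5 : S_ALG) : S_JPT := by
  intro α K κ A z hα hα1 hK hκ hκ4 hz
  obtain ⟨C1, T1, hC1, hT1, hT1', hT1a, hcut, -⟩ := h2 α K hα hα1 hK
  obtain ⟨C2, T2, hC2, hT2, hT2', hT2a, hfld⟩ := h3 α K κ A z hα hα1 hK hκ hκ4 hz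
  set B : ℝ := C1 + C2 + 1 with hB
  have hB1 : 1 ≤ B := by rw [hB]; linarith
  have hBC1 : C1 ≤ B := by rw [hB]; linarith
  have hBC2 : C2 ≤ B := by rw [hB]; linarith
  refine ⟨30000 + B + 10 * B ^ 2, min T1 T2, by positivity, lt_min hT1 hT2,
    (min_le_left _ _).trans hT1', ?_⟩
  intro r t hr ht htT g gt w wt hg0 hg1 x
  have htT1 : t ≤ T1 := htT.trans (min_le_left _ _)
  have htT2 : t ≤ T2 := htT.trans (min_le_right _ _)
  obtain ⟨-, hd01, -, -, -, -, -, hnear, -, hder, hct, -⟩ := hcut t ht htT1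
  obtain ⟨-, hx⟩ := (hfld r hr).2 t ht htT2
  obtain ⟨hp1, hq1, hp3, hq2, hq3, -, hnr⟩ := hx x
  have hscl := h4 α t hα hα1 ht (by nlinarith)
  obtain ⟨-, -, hl0, hl1, -, -, -, -, -, htl, -, -⟩ := hscl
  have hz100 := hz.ge x
  have hz0 : 0 < z x := by linarith
  obtain ⟨-, -, -, -, -, hh0, hPl, hPh, hQ0, hQh, hR0, hRQ, hE0, hEQ, -, -, -, -, -, -⟩ :=
    h1 κ r t (z x) hκ hκ4 hr ht hz0
  have ht1 : t ≤ 1 := htT1.trans hT1'
  -- abbreviations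
  set c := cJ α K t x with hc
  set P := PJ κ r t (z x) with hP
  set Q := QJ κ r t (z x) with hQ
  set R := RJ κ r t (z x) with hR
  set E := EJ κ r t (z x) with hE
  set h := hJ κ r t (z x) with hh
  set c' := deriv (cJ α K t) x with hc'
  set ct := cJt α K t x with hct'
  set n := ind α K t x with hn
  set lm := lam α t with hlm
  set tk : ℝ := t ^ (-κ) with htk
  have htk0 : 0 < tk := Real.rpow_pos_of_pos ht _
  have ht1k : t ^ (1 - κ) = t * tk := by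
    rw [htk, sub_eq_add_neg, Real.rpow_add ht, Real.rpow_one]
  rw [ht1k] at hq2 hq3 hnr
  -- elementary bounds
  have hc0 : 0 ≤ c := by rw [hc, cJ]; exact pow_nonneg (hd01 x).1 _
  have hP0 : 0 ≤ P := le_trans (mul_nonneg (by linarith) hh0.le) hPl
  have htz : t / z x ≤ 1 := by rw [div_le_one hz0]; linarith
  have htz0 : 0 ≤ t / z x := by positivity
  have hQt : Q ≤ t / z x * h := by
    refine hQh.trans ?_
    apply mul_le_mul_of_nonneg_right _ hh0.le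
    apply div_le_div_of_nonneg_right _ hz0.le
    nlinarith
  have hQh1 : Q ≤ h := hQt.trans (by nlinarith)
  have hRQ1 : R ≤ Q := by
    refine hRQ.trans ?_
    have : 2 / z x ≤ 1 := by rw [div_le_one hz0]; linarith
    nlinarith
  have hEh1 : E ≤ h := by
    refine hEQ.trans ?_
    have e1 : 2 / (3 * t) * Q ≤ 2 / (3 * t) * (3 * κ * t / z x * h) :=
      mul_le_mul_of_nonneg_left hQh (by positivity)
    have e2 : 2 / (3 * t) * (3 * κ * t / z x * h) = (2 * κ / z x) * h := by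
      field_simp
    have e3 : 2 * κ / z x ≤ 1 := by rw [div_le_one hz0]; linarith
    rw [e2] at e1
    nlinarith
  have hER : E = z x / (3 * t) * R := rfl
  -- nonlinear bounds
  obtain ⟨hGG, hG, hGW, hGs, hG1, hGt⟩ := jpt_G h5 (hg1 x).1 (hg1 x).2.1 (hg1 x).2.2 (w t x)
  set W0 := w t x with hW0
  set W1 := deriv (w t) x with hW1
  set W2 := iteratedDeriv 2 (w t) x with hW2
  -- near facts
  have hn01 : (n = 0 ∧ x ∉ nearS α K t) ∨ (n = 1 ∧ x ∈ nearS α K t) := by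
    by_cases hxn : x ∈ nearS α K t
    · right; exact ⟨by rw [hn, ind, indicator_of_mem hxn], hxn⟩
    · left; exact ⟨by rw [hn, ind, indicator_of_notMem hxn], hxn⟩
  have hn0 : 0 ≤ n := by rcases hn01 with h | h <;> rw [h.1] <;> norm_num
  have hc'b : |c'| ≤ B / lm * n := by
    have h := (hder 1 le_rfl (by norm_num) x).2
    rw [iteratedDeriv_one, pow_one] at h
    exact h.trans (mul_le_mul_of_nonneg_right (div_le_div_of_nonneg_right hBC1 hl0.le) hn0)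
  have hctb : |ct| ≤ B / lm ^ 3 * n := by
    refine (hct x).1.trans ?_
    exact mul_le_mul_of_nonneg_right (div_le_div_of_nonneg_right hBC1 (by positivity)) hn0
  have hPn : P * n ≤ B * tk * n := by
    rcases hn01 with h | h
    · rw [h.1]; simp
    · apply mul_le_mul_of_nonneg_right _ hn0
      exact (hnr h.2).2.1.trans (mul_le_mul_of_nonneg_right hBC2 htk0.le)
  have hQn : Q * n ≤ B * (t * tk) * n := by
    rcases hn01 with h | h
    · rw [h.1]; simp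
    · apply mul_le_mul_of_nonneg_right _ hn0
      exact (hnr h.2).2.2.1.trans (mul_le_mul_of_nonneg_right hBC2 (by positivity))
  set D : ℝ := tk / lm ^ 3 * n with hD
  have hD0 : 0 ≤ D := mul_nonneg (div_nonneg htk0.le (by positivity)) hn0
  have hB0 : 0 < B := by linarith
  have hDt : D * t ≤ D * lm ^ 2 := mul_le_mul_of_nonneg_left htl hD0
  have k1 : |P * c'| ≤ B ^ 2 * D * lm ^ 2 := by
    rw [abs_mul, abs_of_nonneg hP0]
    calc P * |c'| ≤ P * (B / lm * n) := mul_le_mul_of_nonneg_left hc'b hP0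
      _ = (P * n) * (B / lm) := by ring
      _ ≤ (B * tk * n) * (B / lm) := mul_le_mul_of_nonneg_right hPn (by positivity)
      _ = B ^ 2 * D * lm ^ 2 := by rw [hD]; field_simp
  have k2 : |Q * c'| ≤ B ^ 2 * D * lm ^ 4 := by
    rw [abs_mul, abs_of_nonneg hQ0.le]
    calc Q * |c'| ≤ Q * (B / lm * n) := mul_le_mul_of_nonneg_left hc'b hQ0.le
      _ = (Q * n) * (B / lm) := by ring
      _ ≤ (B * (t * tk) * n) * (B / lm) := mul_le_mul_of_nonneg_right hQn (by positivity)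
      _ = B ^ 2 * (D * t) * lm ^ 2 := by rw [hD]; field_simp
      _ ≤ B ^ 2 * (D * lm ^ 2) * lm ^ 2 := by gcongr
      _ = B ^ 2 * D * lm ^ 4 := by ring
  have k3 : |P * ct| ≤ B ^ 2 * D := by
    rw [abs_mul, abs_of_nonneg hP0]
    calc P * |ct| ≤ P * (B / lm ^ 3 * n) := mul_le_mul_of_nonneg_left hctb hP0
      _ = (P * n) * (B / lm ^ 3) := by ring
      _ ≤ (B * tk * n) * (B / lm ^ 3) := mul_le_mul_of_nonneg_right hPn (by positivity)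
      _ = B ^ 2 * D := by rw [hD]; field_simp
  have k4 : |Q * ct| ≤ B ^ 2 * D * lm ^ 2 := by
    rw [abs_mul, abs_of_nonneg hQ0.le]
    calc Q * |ct| ≤ Q * (B / lm ^ 3 * n) := mul_le_mul_of_nonneg_left hctb hQ0.le
      _ = (Q * n) * (B / lm ^ 3) := by ring
      _ ≤ (B * (t * tk) * n) * (B / lm ^ 3) := mul_le_mul_of_nonneg_right hQn (by positivity)
      _ = B ^ 2 * (D * t) := by rw [hD]; field_simp
      _ ≤ B ^ 2 * (D * lm ^ 2) := by gcongr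
      _ = B ^ 2 * D * lm ^ 2 := by ring
  -- the remaining near coefficients
  set u3 : ℝ := B * D with hu3
  set v3 : ℝ := B * (D * t) with hv3
  set v2 : ℝ := B * (D * t * lm) with hv2
  have hu3b : |u3| ≤ B * D := by rw [hu3, abs_of_nonneg (by positivity)]
  have hv3b : |v3| ≤ B * D * lm ^ 2 := by
    rw [hv3, abs_of_nonneg (by positivity)]
    calc B * (D * t) ≤ B * (D * lm ^ 2) := mul_le_mul_of_nonneg_left hDt hB0.le
      _ = B * D * lm ^ 2 := by ring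
  have hv2b : |v2| ≤ B * D * lm ^ 3 := by
    rw [hv2, abs_of_nonneg (by positivity)]
    calc B * (D * t * lm) ≤ B * (D * lm ^ 2 * lm) := by gcongr
      _ = B * D * lm ^ 3 := by ring
  have hEc0 : 0 ≤ E * c := mul_nonneg hE0.le hc0
  have hRc0 : 0 ≤ R * c := mul_nonneg hR0.le hc0
  have hp3b : |iteratedDeriv 3 (pJ α K κ r z t) x| ≤ B * (E * c) + u3 := by
    refine hp3.trans (add_le_add (mul_le_mul_of_nonneg_right hBC2 hEc0) ?_)
    calc C2 * tk / lm ^ 3 * n = C2 * D := by rw [hD]; ring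
      _ ≤ B * D := mul_le_mul_of_nonneg_right hBC2 hD0
  have hq3b : |iteratedDeriv 3 (qJ α K κ r z t) x| ≤ B * (R * c) + v3 := by
    refine hq3.trans (add_le_add (mul_le_mul_of_nonneg_right hBC2 hRc0) ?_)
    calc C2 * (t * tk) / lm ^ 3 * n = C2 * (D * t) := by rw [hD]; ring
      _ ≤ B * (D * t) := mul_le_mul_of_nonneg_right hBC2 (by positivity)
  have hq2b : |iteratedDeriv 2 (qJ α K κ r z t) x| ≤ R * c + v2 := by
    refine hq2.trans (add_le_add le_rfl ?_)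
    calc C2 * (t * tk) / lm ^ 2 * n = C2 * (D * t * lm) := by rw [hD]; field_simp
      _ ≤ B * (D * t * lm) := mul_le_mul_of_nonneg_right hBC2 (by positivity)
  -- the nonlinear quantities in the near region
  have hz : c' * nG (g t x) W0 = c' * W0 ^ 5 ∧ c' * nGG (g t x) W0 = c' * W0 ^ 6 ∧
      ct * nGG (g t x) W0 = ct * W0 ^ 6 ∧
      v2 * (|nG (g t x) W0| * |W1|) = v2 * (|W0| ^ 5 * |W1|) := by
    rcases hn01 with h | h
    · have z1 : c' = 0 := by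
        rw [h.1, mul_zero] at hc'b
        exact abs_nonpos_iff.1 hc'b
      have z2 : ct = 0 := by
        rw [h.1, mul_zero] at hctb
        exact abs_nonpos_iff.1 hctb
      have z3 : v2 = 0 := by rw [hv2, hD, h.1]; ring
      rw [z1, z2, z3]; simp
    · have z0 : g t x = 0 := hg0 x (hnear x h.2).1
      rw [z0]
      have e1 : nG 0 W0 = W0 ^ 5 := by unfold nG; ring
      have e2 : nGG 0 W0 = W0 ^ 6 := by unfold nGG; ring
      rw [e1, e2, abs_pow]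
      simp
  obtain ⟨z1, z2, z3, z4⟩ := hz
  -- assembling
  have hmain := jpt_main (c := c) (P := P) (Q := Q) (R := R) (E := E) (h := h)
    (η := z x / (3 * t)) (tz := t / z x) (W0 := W0) (W1 := W1) (W2 := W2)
    (U1 := deriv (g t) x) (Ut := gt t x) (S0 := srcS g w wt t x)
    (S1 := deriv (srcS g w wt t) x) (p3 := iteratedDeriv 3 (pJ α K κ r z t) x)
    (q2 := iteratedDeriv 2 (qJ α K κ r z t) x) (q3 := iteratedDeriv 3 (qJ α K κ r z t) x)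
    (B := B) (u3 := u3) (v2 := v2) (v3 := v3) (G := nG (g t x) W0) (GG := nGG (g t x) W0)
    (G2 := nG2 (g t x) W0) hc0 hP0 hPh hQ0.le hQh1 hQt hR0.le hRQ1 hE0.le hEh1 hER hB0.le
    hp3b hq2b hq3b hGG hG hGW hGs hG1 hGt
  have hnearb := jpt_near (W0 := W0) (W1 := W1) (W2 := W2) hB1 hD0 hl0.le k1 k2 k3 k4 hu3b
    hv3b hv2b
  have hT : tInt (pJ α K κ r z) (pJt α K κ r z) (qJ α K κ r z) (qJt α K κ r z) g gt w wt t x
      = (-3 * (R * c) * W2 ^ 2 + (iteratedDeriv 3 (qJ α K κ r z t) x - 3 * (-(E * c))) * W1 ^ 2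
      + iteratedDeriv 3 (pJ α K κ r z t) x * W0 ^ 2 - (-(E * c)) * nGG (g t x) W0 / 3
      - 2 * (P * c) * deriv (g t) x * nG2 (g t x) W0 + 2 * (-(E * c)) * nG (g t x) W0 * W0
      - nG (g t x) W0 * (4 * (R * c) * W2 + 2 * iteratedDeriv 2 (qJ α K κ r z t) x * W1)
      - (R * c) * nG (g t x) W0 ^ 2 + 2 * (P * c * srcS g w wt t x * W0
        + Q * c * deriv (srcS g w wt t) x * W1 - Q * c * srcS g w wt t x * nG (g t x) W0)
      - 3 * (z x / (3 * t)) * E * c * W0 ^ 2 + 3 * E * c * (W1 ^ 2 - nGG (g t x) W0 / 3)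
      - 2 * (Q * c) * nG2 (g t x) W0 * gt t x)
      + (-3 * (Q * c') * W2 ^ 2 - 3 * (P * c') * W1 ^ 2 + (P * ct) * W0 ^ 2 + (Q * ct) * W1 ^ 2
        - (P * c') * W0 ^ 6 / 3 + 2 * (P * c') * W0 ^ 6 - 4 * (Q * c') * W0 ^ 5 * W2
        - (Q * c') * W0 ^ 10 - (Q * ct) * W0 ^ 6 / 3) := by
    have ez : z x / t = 3 * (z x / (3 * t)) := by field_simp
    have z5 : c' * nG (g t x) W0 ^ 2 = c' * W0 ^ 10 := by
      linear_combination (nG (g t x) W0 + W0 ^ 5) * z1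
    have ep : pJ α K κ r z t x = P * c := rfl
    have eq : qJ α K κ r z t x = Q * c := rfl
    have ept : pJt α K κ r z t x = -(3 * (z x / (3 * t))) * E * c + P * ct := by
      rw [← ez]; rfl
    have eqt : qJt α K κ r z t x = 3 * E * c + Q * ct := rfl
    unfold tInt rhsD
    rw [hp1, hq1, ep, eq, ept, eqt]
    linear_combination (2 * P * W0 - 4 * Q * W2) * z1 - (P / 3) * z2 - (Q / 3) * z3 - Q * z5
  rw [hT]
  have hND : tk / lm ^ 3 * (n * nrI α t (w t) x)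
      = D * (lm ^ 4 * W2 ^ 2 + lm ^ 2 * W1 ^ 2 + W0 ^ 2 + lm ^ 4 * W0 ^ 10) := by
    rw [hD, nrI]; ring
  rw [hND]
  have q1 : 0 ≤ c * (h * W0 ^ 2 + Q * W1 ^ 2) := by positivity
  have q2 : 0 ≤ c * E * W0 ^ 6 := by positivity
  have q3 : 0 ≤ c * R * W0 ^ 10 := by positivity
  have q4 : 0 ≤ D * (lm ^ 4 * W2 ^ 2 + lm ^ 2 * W1 ^ 2 + W0 ^ 2 + lm ^ 4 * W0 ^ 10) := by
    positivity
  have q5 : 0 ≤ c * h * ((|deriv (g t) x| + t / z x * |gt t x|) * |W0| ^ 5) := by positivity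
  have q6 : 0 ≤ c * (h * (|srcS g w wt t x| * |W0|) + Q * (|deriv (srcS g w wt t) x| * |W1|)
      + Q * (|srcS g w wt t x| * |W0| ^ 5)) := by positivity
  have hBB : 0 ≤ 10 * B ^ 2 := by positivity
  have r1 := mul_nonneg hBB q1
  have r2 := mul_nonneg (add_nonneg hB0.le hBB) q2
  have r3 := mul_nonneg (add_nonneg hB0.le hBB) q3
  have r4 := mul_nonneg (show (0 : ℝ) ≤ 30000 + B by positivity) q4
  have r5 := mul_nonneg (add_nonneg hB0.le hBB) q5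
  have r6 := mul_nonneg (add_nonneg hB0.le hBB) q6
  have z4' : 2 * v2 * (|nG (g t x) W0| * |W1|) = 2 * v2 * (|W0| ^ 5 * |W1|) := by
    rw [mul_assoc, z4]; ring
  rw [z4'] at hmain
  linarith only [hmain, hnearb, r1, r2, r3, r4, r5, r6]

end Pool.Agent.Helper79.KV
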